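import Pool.Agent.SHA.Stmts

/-!
# SHA, row UPB: the upper bound
-/

set_option autoImplicit false

namespace Pool.Agent.SHA.H81

open Pool.Agent.Helper18_Helly Pool.Agent.SHA

universe u

/-- the choice of `a` -/
theorem choose_a (q : ℕ) (hq : 1 ≤ q) : ∃ a : ℕ, 1 ≤ a ∧ q ≤ a ^ 2 + a ∧ a ^ 2 ≤ q + a := by
  have hex : ∃ a : ℕ, q ≤ a ^ 2 + a := ⟨q, by nlinarith⟩
  classical
  have h1 := Nat.find_spec hex
  have h2 : ∀ m, m < Nat.find hex → ¬ q ≤ m ^ 2 + m := fun m hm => Nat.find_min hex hm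
  generalize Nat.find hex = a at h1 h2
  obtain _ | c := a
  · omega
  · refine ⟨c + 1, by omega, h1, ?_⟩
    have h3 := h2 c (by omega)
    nlinarith

/-- the numerical bound -/
theorem num {A Q : ℝ} (hA : 1 ≤ A) (hQ : 0 ≤ Q) (h1 : Q ≤ A ^ 2 + A) (h2 : A ^ 2 ≤ Q + A) :
    Q / A + A ≤ 2 * √(Q + 1) := by
  have hA0 : 0 < A := by linarith
  have h3 : Q / A ≤ A + 1 := by
    rw [div_le_iff₀ hA0]
    nlinarith
  have h4 : A - 1 ≤ Q / A := by
    rw [le_div_iff₀ hA0]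
    nlinarith
  have h5 : Q / A * A = Q := div_mul_cancel₀ _ hA0.ne'
  have h6 : 0 ≤ Q / A := div_nonneg hQ hA0.le
  have h7 : (Q / A + A) ^ 2 ≤ 4 * (Q + 1) := by nlinarith
  have h8 : Q / A + A ≤ √(4 * (Q + 1)) := Real.le_sqrt_of_sq_le h7
  have h9 : √(4 * (Q + 1)) = 2 * √(Q + 1) := by
    rw [Real.sqrt_mul (by norm_num)]
    congr 1
    rw [show (4 : ℝ) = 2 ^ 2 by norm_num]
    exact Real.sqrt_sq (by norm_num)
  rwa [h9] at h8

/-- splitting off `a` points -/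
theorem split {s a q : ℕ} (hs : q + 1 = s) (ha : (a : ℝ) ≤ 2 * √(s : ℝ)) {n : ℕ∞}
    (hn : ∀ m : ℕ, n = m → (s : ℝ) + 4 * √(s : ℝ) < m) :
    ∃ N : ℕ∞, n = N + a ∧ (q : ℕ∞) < N ∧ (s : ℕ∞) < n ∧
      ∀ (k : ℕ), (∀ M : ℕ, N = M → a * q ≤ (k + 1) * M) →
        ∀ M : ℕ, n = M → a * (s - 1) ≤ (k + 1) * M := by
  have hr := Real.sqrt_nonneg (s : ℝ)
  induction n using ENat.recTopCoe with
  | top =>
    refine ⟨⊤, ?_, ?_, ?_, ?_⟩
    · rw [top_add]
    · exact WithTop.coe_lt_top _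
    · exact WithTop.coe_lt_top _
    · intro k _ M hM
      exact absurd hM (ENat.top_ne_natCast M)
  | coe m =>
    have h1 := hn m rfl
    have h2 : (q : ℝ) + 1 = s := by exact_mod_cast hs
    have h3 : ((q + a : ℕ) : ℝ) < m := by
      push_cast
      linarith
    have h4 : q + a < m := by exact_mod_cast h3
    have h5 : (s : ℝ) < m := by linarith
    have h6 : s < m := by exact_mod_cast h5
    refine ⟨((m - a : ℕ) : ℕ∞), ?_, ?_, ?_, ?_⟩
    · have h7 : m = m - a + a := by omega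
      exact_mod_cast h7
    · have h7 : q < m - a := by omega
      exact_mod_cast h7
    · exact_mod_cast h6
    · intro k hk M hM
      have h7 : m = M := by exact_mod_cast hM
      have h8 := hk (m - a) rfl
      have h9 : s - 1 = q := by omega
      rw [h9, ← h7]
      exact h8.trans (Nat.mul_le_mul_left _ (Nat.sub_le _ _))

theorem upb (hDES : DESStmt) (hCON : CONStmt.{u}) (hGUB : GUBStmt) (hANA : ANAStmt)
    (hBAS : BASStmt) : UPBStmt.{u} := by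
  intro s n₁ n₂ hs h1 h2
  obtain ⟨hθ, -, -, -⟩ := hBAS s n₁ n₂ hs h1 h2
  have hs0 : (0 : ℝ) ≤ s := Nat.cast_nonneg s
  have hr := Real.sqrt_nonneg (s : ℝ)
  have hlead : (s : ℝ) ≤ lead s n₁ n₂ := by
    unfold lead
    nlinarith
  by_cases hA : ∃ m : ℕ, min n₁ n₂ = m ∧ (m : ℝ) ≤ s + 4 * √(s : ℝ)
  · obtain ⟨m, hm, hm'⟩ := hA
    have hfin : min n₁ n₂ ≠ ⊤ := by
      rw [hm]
      exact ENat.natCast_ne_top m
    have h3 := value_min.{u} hs h1 h2 hfin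
    rw [hm] at h3
    exact ⟨m, h3, by linarith⟩
  have hB : ∀ m : ℕ, min n₁ n₂ = m → (s : ℝ) + 4 * √(s : ℝ) < m := by
    intro m hm
    by_contra h3
    exact hA ⟨m, hm, not_lt.mp h3⟩
  have hmin : ∀ m : ℕ, min n₁ n₂ ≤ m → (s : ℝ) + 4 * √(s : ℝ) < m := by
    intro m hm
    have h3 : min n₁ n₂ ≠ ⊤ := ne_top_of_le_ne_top (ENat.natCast_ne_top m) hm
    obtain ⟨m', hm'⟩ := ENat.ne_top_iff_exists.1 h3
    have h4 := hB m' hm'.symm
    rw [← hm'] at hm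
    have h5 : m' ≤ m := by exact_mod_cast hm
    have h6 : (m' : ℝ) ≤ m := by exact_mod_cast h5
    linarith
  have hB1 : ∀ m : ℕ, n₁ = m → (s : ℝ) + 4 * √(s : ℝ) < m := fun m hm =>
    hmin m (hm ▸ min_le_left _ _)
  have hB2 : ∀ m : ℕ, n₂ = m → (s : ℝ) + 4 * √(s : ℝ) < m := fun m hm =>
    hmin m (hm ▸ min_le_right _ _)
  by_cases hs1 : s = 1
  · subst hs1
    have key : ∀ n : ℕ∞, (∀ m : ℕ, n = m → ((1 : ℕ) : ℝ) + 4 * √((1 : ℕ) : ℝ) < m) →
        ((2 * 1 : ℕ) : ℕ∞) ≤ n := by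
      intro n hn
      induction n using ENat.recTopCoe with
      | top => exact le_top
      | coe m =>
        have h3 := hn m rfl
        rw [Nat.cast_one, Real.sqrt_one] at h3
        have h4 : ((2 : ℕ) : ℝ) < m := by
          push_cast
          linarith
        have h5 : 2 < m := by exact_mod_cast h4
        exact_mod_cast (by omega : 2 * 1 ≤ m)
    refine ⟨2 * 1, value_two_mul.{u} hs (key n₁ hB1) (key n₂ hB2), ?_⟩
    have h3 : √((1 : ℕ) : ℝ) = 1 := by rw [Nat.cast_one, Real.sqrt_one]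
    rw [h3]
    have h4 : ((1 : ℕ) : ℝ) = 1 := Nat.cast_one
    push_cast
    linarith
  · have hs2 : 2 ≤ s := by omega
    obtain ⟨q, hq⟩ : ∃ q : ℕ, q + 1 = s := ⟨s - 1, by omega⟩
    have hq1 : 1 ≤ q := by omega
    obtain ⟨a, ha1, ha2, ha3⟩ := choose_a q hq1
    have hqR : (q : ℝ) + 1 = s := by exact_mod_cast hq
    have hnum := num (A := (a : ℝ)) (Q := (q : ℝ)) (by exact_mod_cast ha1) (Nat.cast_nonneg q)
      (by exact_mod_cast ha2) (by exact_mod_cast ha3)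
    rw [hqR] at hnum
    have hqa : 0 ≤ (q : ℝ) / a := by positivity
    have ha : (a : ℝ) ≤ 2 * √(s : ℝ) := by linarith
    obtain ⟨N, hN, hqN, hsn, hM⟩ := split hq ha hB1
    obtain ⟨N', hN', hqN', hsn', hM'⟩ := split hq ha hB2
    obtain ⟨k, I, d1, d2, d3, d4, d5, d6⟩ := hDES q a N hq1 ha1 hqN
    obtain ⟨k', I', g1, g2, g3, g4, g5, g6⟩ := hDES q a N' hq1 ha1 hqN'
    have hana := hANA s a k k' n₁ n₂ hs d1 g1 hsn hsn' (hM k d6) (hM' k' g6)
    have hfin : ∀ x y e e' : ℕ, e ≤ a → e' ≤ a → e + k * x + a * y ≤ a * s →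
        e' + k' * y + a * x ≤ a * s → x + y + e + e' ≤ ⌊lead s n₁ n₂ + 4 * √(s : ℝ)⌋₊ := by
      intro x y e e' c1 c2 c3 c4
      apply Nat.le_floor
      have h3 := hGUB s a k k' x y e e' hs d1 g1 c1 c2 c3 c4
      push_cast
      have h4 : 2 * ((s : ℝ) - 1) / a = 2 * ((q : ℝ) / a) := by
        rw [← hqR]
        ring
      rw [h4] at hana
      linarith
    obtain ⟨v, hv, hval⟩ := hCON s a k k' ⌊lead s n₁ n₂ + 4 * √(s : ℝ)⌋₊ N N' I I' hs ha1 d2
      (fun j hj => by have := d3 j hj; omega) (by omega) d5 g2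
      (fun j hj => by have := g3 j hj; omega) (by omega) g5 hfin
    rw [← hN, ← hN'] at hval
    refine ⟨v, hval, ?_⟩
    have h3 : (v : ℝ) ≤ (⌊lead s n₁ n₂ + 4 * √(s : ℝ)⌋₊ : ℝ) := by exact_mod_cast hv
    exact h3.trans (Nat.floor_le (by linarith))

end Pool.Agent.SHA.H81
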